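import Pool.Agent.Helper54.LM.Defs

/-!
# LM project: modules LSQ, LMAP, LSC
-/

open Filter Topology NumberField

namespace Pool.Agent.Helper54.LM

open Pool.Agent.Helper42.LS Pool.Agent.Helper42.LK

theorem LSQ_ne_zero {m : ℕ} {k : Fin m → ℤ} (hk : k ≠ 0) {n : ℕ} (hn : 1 ≤ n) : n • k ≠ 0 := by
  intro h
  apply hk
  funext i
  have h1 := congrFun h i
  simp only [Pi.smul_apply, nsmul_eq_mul, Pi.zero_apply] at h1
  rcases mul_eq_zero.mp h1 with h2 | h2
  · exfalso
    have : n = 0 := by exact_mod_cast h2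
    omega
  · exact h2

theorem LSQ_ne {m : ℕ} {k : Fin m → ℤ} (hk : k ≠ 0) {n l : ℕ} (hl : l < n) :
    n • k ≠ l • k := by
  intro h
  have h1 : (n - l) • k = 0 := by
    have h2 : n • k = (n - l) • k + l • k := by
      rw [← add_smul, Nat.sub_add_cancel hl.le]
    have h3 : (n - l) • k + l • k = 0 + l • k := by rw [← h2, h, zero_add]
    exact add_right_cancel h3
  exact LSQ_ne_zero hk (by omega) h1

theorem LSQ_ne_neg {m : ℕ} {k : Fin m → ℤ} (hk : k ≠ 0) {n l : ℕ} (hl : l < n) :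
    n • k ≠ -(l • k) := by
  intro h
  have h1 : (n + l) • k = 0 := by
    rw [add_smul, h, neg_add_cancel]
  exact LSQ_ne_zero hk (by omega) h1

theorem LSQ_sub {m : ℕ} (k : Fin m → ℤ) {n l : ℕ} (hl : l ≤ n) :
    (n - l) • k = n • k + -(l • k) := by
  have h2 : n • k = (n - l) • k + l • k := by
    rw [← add_smul, Nat.sub_add_cancel hl]
  rw [h2, add_neg_cancel_right]

theorem st_LSQ : ST_LSQ := by
  intro F _ m a b c X Y h k hk
  have two : ∀ n : ℕ, (2 * n) • k = n • k + n • k := by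
    intro n
    rw [two_mul, add_smul]
  refine ⟨?_, ?_, ?_, ?_, ?_, ?_, ?_, ?_, ?_⟩
  · intro n hn
    exact h.curve _ (LSQ_ne_zero hk hn)
  · intro n hn
    exact h.yne _ (LSQ_ne_zero hk hn)
  · intro n l hl hln
    exact h.xne _ _ (LSQ_ne_zero hk (by omega)) (LSQ_ne_zero hk hl) (LSQ_ne hk hln)
      (LSQ_ne_neg hk hln)
  · intro n hn
    show X ((2 * n) • k) = _
    rw [two n]
    exact h.dblx _ (LSQ_ne_zero hk hn)
  · intro n hn
    show Y ((2 * n) • k) = -(_ * (X ((2 * n) • k) - _) + _)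
    rw [two n]
    exact h.dbly _ (LSQ_ne_zero hk hn)
  · intro n l hl hln
    show X ((n + l) • k) = _
    rw [add_smul]
    exact h.addx _ _ (LSQ_ne_zero hk (by omega)) (LSQ_ne_zero hk hl) (LSQ_ne hk hln)
      (LSQ_ne_neg hk hln)
  · intro n l hl hln
    show Y ((n + l) • k) = -(_ * (X ((n + l) • k) - _) + _)
    rw [add_smul]
    exact h.addy _ _ (LSQ_ne_zero hk (by omega)) (LSQ_ne_zero hk hl) (LSQ_ne hk hln)
      (LSQ_ne_neg hk hln)
  · intro n l hl hln
    have e := h.addx (n • k) (-(l • k)) (LSQ_ne_zero hk (by omega))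
      (neg_ne_zero.mpr (LSQ_ne_zero hk hl)) (LSQ_ne_neg hk hln)
      (by rw [neg_neg]; exact LSQ_ne hk hln)
    rw [h.negx _ (LSQ_ne_zero hk hl), h.negy _ (LSQ_ne_zero hk hl), sub_neg_eq_add] at e
    show X ((n - l) • k) = _
    rw [LSQ_sub k hln.le]
    exact e
  · intro n l hl hln
    have e := h.addy (n • k) (-(l • k)) (LSQ_ne_zero hk (by omega))
      (neg_ne_zero.mpr (LSQ_ne_zero hk hl)) (LSQ_ne_neg hk hln)
      (by rw [neg_neg]; exact LSQ_ne hk hln)
    rw [h.negx _ (LSQ_ne_zero hk hl), h.negy _ (LSQ_ne_zero hk hl), sub_neg_eq_add] at e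
    show Y ((n - l) • k) = -(_ * (X ((n - l) • k) - _) + _)
    rw [LSQ_sub k hln.le]
    exact e

theorem st_LMAP : ST_LMAP := by
  intro F E _ _ φ m a b c X Y h
  refine ⟨?_, ?_, ?_, ?_, ?_, ?_, ?_, ?_, ?_⟩
  · intro k hk
    have := congrArg φ (h.curve k hk)
    simpa using this
  · intro k hk
    exact (map_ne_zero φ).2 (h.yne k hk)
  · intro k hk
    exact congrArg φ (h.negx k hk)
  · intro k hk
    have := congrArg φ (h.negy k hk)
    simpa using this
  · intro k l hk hl h1 h2 h3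
    exact h.xne k l hk hl h1 h2 (φ.injective h3)
  · intro k hk
    have := congrArg φ (h.dblx k hk)
    simpa [map_ofNat] using this
  · intro k hk
    have := congrArg φ (h.dbly k hk)
    simpa [map_ofNat] using this
  · intro k l hk hl h1 h2
    have := congrArg φ (h.addx k l hk hl h1 h2)
    simpa using this
  · intro k l hk hl h1 h2
    have := congrArg φ (h.addy k l hk hl h1 h2)
    simpa using this

theorem st_LSC : ST_LSC := by
  intro F _ m A B u X Y hu h
  have hu2 : u ^ 2 ≠ 0 := pow_ne_zero 2 hu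
  have hu3 : u ^ 3 ≠ 0 := pow_ne_zero 3 hu
  have hdiv : ∀ a b : F, (u ^ 3 * a) / (u ^ 2 * b) = u * (a / b) := by
    intro a b
    have : u ^ 3 * a = u ^ 2 * (u * a) := by ring
    rw [this, mul_div_mul_left _ _ hu2, mul_div_assoc]
  refine ⟨?_, ?_, ?_, ?_, ?_, ?_, ?_, ?_, ?_⟩
  · intro k hk
    have := h.curve k hk
    linear_combination u ^ 6 * this
  · intro k hk
    exact mul_ne_zero hu3 (h.yne k hk)
  · intro k hk
    show u ^ 2 * X (-k) = u ^ 2 * X k
    rw [h.negx k hk]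
  · intro k hk
    show u ^ 3 * Y (-k) = -(u ^ 3 * Y k)
    rw [h.negy k hk, mul_neg]
  · intro k l hk hl h1 h2 he
    exact h.xne k l hk hl h1 h2 (mul_left_cancel₀ hu2 he)
  · intro k hk
    have e := h.dblx k hk
    have e1 : (3 * (u ^ 2 * X k) ^ 2 + 2 * 0 * (u ^ 2 * X k) + u ^ 4 * A) / (2 * (u ^ 3 * Y k))
        = u * ((3 * X k ^ 2 + 2 * 0 * X k + A) / (2 * Y k)) := by
      have e2 : 3 * (u ^ 2 * X k) ^ 2 + 2 * 0 * (u ^ 2 * X k) + u ^ 4 * A
          = u ^ 3 * (u * (3 * X k ^ 2 + 2 * 0 * X k + A)) := by ring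
      have e3 : 2 * (u ^ 3 * Y k) = u ^ 3 * (2 * Y k) := by ring
      rw [e2, e3, mul_div_mul_left _ _ hu3, mul_div_assoc]
    rw [e1, e]
    ring
  · intro k hk
    have e := h.dbly k hk
    have e1 : (3 * (u ^ 2 * X k) ^ 2 + 2 * 0 * (u ^ 2 * X k) + u ^ 4 * A) / (2 * (u ^ 3 * Y k))
        = u * ((3 * X k ^ 2 + 2 * 0 * X k + A) / (2 * Y k)) := by
      have e2 : 3 * (u ^ 2 * X k) ^ 2 + 2 * 0 * (u ^ 2 * X k) + u ^ 4 * A
          = u ^ 3 * (u * (3 * X k ^ 2 + 2 * 0 * X k + A)) := by ring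
      have e3 : 2 * (u ^ 3 * Y k) = u ^ 3 * (2 * Y k) := by ring
      rw [e2, e3, mul_div_mul_left _ _ hu3, mul_div_assoc]
    rw [e1, e]
    ring
  · intro k l hk hl h1 h2
    have e := h.addx k l hk hl h1 h2
    rw [← mul_sub, ← mul_sub, hdiv, e]
    ring
  · intro k l hk hl h1 h2
    have e := h.addy k l hk hl h1 h2
    rw [← mul_sub, ← mul_sub (u ^ 2) (X k) (X l), hdiv, e]
    ring

end Pool.Agent.Helper54.LM
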