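import Pool.Agent.Helper54.LM.Defs
import Pool.Agent.Helper96.LM.LSQ

/-!
# LM project: module LCH (the canonical height is a positive quadratic form)
-/

open Filter Topology NumberField

namespace Pool.Agent.Helper54.LM

open Pool.Agent.Helper42.LS Pool.Agent.Helper42.LK

/-- the parallelogram law implies the vanishing of the third difference -/
theorem LCH_third {G : Type} [AddCommGroup G] (e : G → ℝ)
    (hp : ∀ k l, e (k + l) + e (k - l) = 2 * e k + 2 * e l) (x y z : G) :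
    e (x + y + z) = e (x + y) + e (x + z) + e (y + z) - e x - e y - e z := by
  have h1 := hp (x + y) z
  have h2 := hp x (y - z)
  have h3 := hp (x + z) y
  have h4 := hp y z
  have e2 : x + (y - z) = x + y - z := by abel
  have e3 : x - (y - z) = x + z - y := by abel
  have e4 : x + z + y = x + y + z := by abel
  rw [e2, e3] at h2
  rw [e4] at h3
  linarith

/-- polarization -/
noncomputable def LCH_b {G : Type} [AddCommGroup G] (e : G → ℝ) (x y : G) : ℝ :=
  (e (x + y) - e x - e y) / 2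

theorem LCH_b_add {G : Type} [AddCommGroup G] (e : G → ℝ)
    (hp : ∀ k l, e (k + l) + e (k - l) = 2 * e k + 2 * e l) (x y z : G) :
    LCH_b e x (y + z) = LCH_b e x y + LCH_b e x z := by
  unfold LCH_b
  have h1 := LCH_third e hp x y z
  rw [← add_assoc, h1]
  ring

theorem LCH_b_symm {G : Type} [AddCommGroup G] (e : G → ℝ) (x y : G) :
    LCH_b e x y = LCH_b e y x := by
  unfold LCH_b
  rw [add_comm x y]
  ring

theorem LCH_b_self {G : Type} [AddCommGroup G] (e : G → ℝ) (h0 : e 0 = 0)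
    (hp : ∀ k l, e (k + l) + e (k - l) = 2 * e k + 2 * e l) (x : G) :
    LCH_b e x x = e x := by
  unfold LCH_b
  have h1 := hp x x
  rw [sub_self, h0] at h1
  linarith

theorem LCH_hom {m : ℕ} (f : (Fin m → ℤ) → ℝ) (hf : ∀ x y, f (x + y) = f x + f y)
    (k : Fin m → ℤ) : f k = ∑ i, (k i : ℝ) * f (Pi.single i 1) := by
  set g : (Fin m → ℤ) →+ ℝ := AddMonoidHom.mk' f hf with hg
  have hgf : ∀ x, g x = f x := fun x => rfl
  have h1 : g k = ∑ i, (k i : ℝ) * g (Pi.single i 1) := by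
    conv_lhs => rw [← Finset.univ_sum_single k]
    rw [map_sum]
    refine Finset.sum_congr rfl (fun i _ => ?_)
    have h2 : (Pi.single i (k i) : Fin m → ℤ) = k i • (Pi.single i (1 : ℤ) : Fin m → ℤ) := by
      rw [← Pi.single_smul, smul_eq_mul, mul_one]
    rw [h2, map_zsmul, zsmul_eq_mul]
  exact h1

/-- a function satisfying the parallelogram law is a quadratic form -/
theorem LCH_qf {m : ℕ} (e : (Fin m → ℤ) → ℝ) (h0 : e 0 = 0)
    (hp : ∀ k l, e (k + l) + e (k - l) = 2 * e k + 2 * e l) (k : Fin m → ℤ) :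
    e k = qf (Matrix.of fun i j => LCH_b e (Pi.single i 1) (Pi.single j 1)) k := by
  rw [← LCH_b_self e h0 hp k]
  have h1 : ∀ l : Fin m → ℤ, LCH_b e k l = ∑ j, (l j : ℝ) * LCH_b e k (Pi.single j 1) :=
    fun l => LCH_hom (fun l => LCH_b e k l) (fun x y => LCH_b_add e hp k x y) l
  have h2 : ∀ j : Fin m, LCH_b e k (Pi.single j 1) =
      ∑ i, (k i : ℝ) * LCH_b e (Pi.single i 1) (Pi.single j 1) := by
    intro j
    refine LCH_hom (fun l => LCH_b e l (Pi.single j 1)) (fun x y => ?_) k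
    show LCH_b e (x + y) (Pi.single j 1) = _
    rw [LCH_b_symm, LCH_b_add e hp, LCH_b_symm e _ x, LCH_b_symm e _ y]
  rw [h1 k]
  unfold qf
  rw [Finset.sum_comm]
  refine Finset.sum_congr rfl (fun j _ => ?_)
  rw [h2 j, Finset.mul_sum]
  refine Finset.sum_congr rfl (fun i _ => ?_)
  rw [Matrix.of_apply]
  ring

theorem LCH_pow_smul_ne {m : ℕ} {k l : Fin m → ℤ} (h : k ≠ l) (n : ℕ) : 2 ^ n • k ≠ 2 ^ n • l := by
  intro h1
  have h2 : 2 ^ n • (k - l) = 0 := by rw [smul_sub, h1, sub_self]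
  exact LSQ_ne_zero (sub_ne_zero.mpr h) Nat.one_le_two_pow h2

section

variable {K : Type} [Field K] [NumberField K] {m : ℕ} {A B : K}
  {X Y : (Fin m → ℤ) → K}

theorem LCH_lim {e : (Fin m → ℤ) → ℝ}
    (he : ∀ k, k ≠ 0 → IsCanK (fun n : ℕ => X (n • k)) (e k)) {k : Fin m → ℤ} (hk : k ≠ 0) :
    Tendsto (fun n : ℕ => Height.logHeight₁ (X (2 ^ n • k)) / 4 ^ n) atTop (𝓝 (e k)) := by
  have h1 := he k hk 1 le_rfl
  simpa using h1

theorem LCH_neg {e : (Fin m → ℤ) → ℝ} (hX : GLat (0 : K) A B X Y)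
    (he : ∀ k, k ≠ 0 → IsCanK (fun n : ℕ => X (n • k)) (e k)) {k : Fin m → ℤ} (hk : k ≠ 0) :
    e (-k) = e k := by
  have h1 := LCH_lim he (neg_ne_zero.mpr hk)
  have h2 : (fun n : ℕ => Height.logHeight₁ (X (2 ^ n • -k)) / (4 : ℝ) ^ n) =
      fun n : ℕ => Height.logHeight₁ (X (2 ^ n • k)) / (4 : ℝ) ^ n := by
    funext n
    rw [smul_neg, hX.negx _ (LSQ_ne_zero hk Nat.one_le_two_pow)]
  rw [h2] at h1
  exact tendsto_nhds_unique h1 (LCH_lim he hk)

theorem LCH_dbl {e : (Fin m → ℤ) → ℝ}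
    (he : ∀ k, k ≠ 0 → IsCanK (fun n : ℕ => X (n • k)) (e k)) {k : Fin m → ℤ} (hk : k ≠ 0) :
    e (k + k) = 4 * e k := by
  have hkk : k + k ≠ 0 := by
    rw [← two_nsmul]
    exact LSQ_ne_zero hk (by norm_num)
  have h1 := LCH_lim he hkk
  have h2 := he k hk 2 (by norm_num)
  have h3 : (fun n : ℕ => Height.logHeight₁ (X (2 ^ n • (k + k))) / (4 : ℝ) ^ n) =
      fun n : ℕ => Height.logHeight₁ (X ((2 * 2 ^ n) • k)) / (4 : ℝ) ^ n := by
    funext n
    rw [← two_nsmul, smul_smul, mul_comm (2 ^ n) 2]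
  rw [h3] at h1
  have h4 := tendsto_nhds_unique h1 h2
  rw [h4]
  norm_num

theorem LCH_gen {e : (Fin m → ℤ) → ℝ} {C : ℝ}
    (hC : ∀ k l, k ≠ 0 → l ≠ 0 → k ≠ l → k ≠ -l →
      |Height.logHeight₁ (X (k + l)) + Height.logHeight₁ (X (k - l)) -
        2 * Height.logHeight₁ (X k) - 2 * Height.logHeight₁ (X l)| ≤ C)
    (he : ∀ k, k ≠ 0 → IsCanK (fun n : ℕ => X (n • k)) (e k)) {k l : Fin m → ℤ} (hk : k ≠ 0)
    (hl : l ≠ 0) (h1 : k ≠ l) (h2 : k ≠ -l) :
    e (k + l) + e (k - l) = 2 * e k + 2 * e l := by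
  have hs : k - l ≠ 0 := sub_ne_zero.mpr h1
  have ha : k + l ≠ 0 := fun h => h2 (eq_neg_of_add_eq_zero_left h)
  have t1 := LCH_lim he ha
  have t2 := LCH_lim he hs
  have t3 := LCH_lim he hk
  have t4 := LCH_lim he hl
  have t5 := (((t1.add t2).sub (t3.const_mul 2)).sub (t4.const_mul 2)).abs
  have t6 : Tendsto (fun n : ℕ => C / (4 : ℝ) ^ n) atTop (𝓝 0) := by
    have h4 : Tendsto (fun n : ℕ => (4 : ℝ) ^ n) atTop atTop :=
      tendsto_pow_atTop_atTop_of_one_lt (by norm_num)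
    exact h4.const_div_atTop C
  have h3 : |e (k + l) + e (k - l) - 2 * e k - 2 * e l| ≤ 0 := by
    refine le_of_tendsto_of_tendsto' t5 t6 (fun n => ?_)
    have h4 : (0 : ℝ) < 4 ^ n := by positivity
    have h5 := hC (2 ^ n • k) (2 ^ n • l) (LSQ_ne_zero hk Nat.one_le_two_pow)
      (LSQ_ne_zero hl Nat.one_le_two_pow) (LCH_pow_smul_ne h1 n)
      (by rw [← smul_neg]; exact LCH_pow_smul_ne h2 n)
    rw [← smul_add, ← smul_sub] at h5
    rw [le_div_iff₀ h4]
    calc _ = |(Height.logHeight₁ (X (2 ^ n • (k + l))) / 4 ^ n +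
            Height.logHeight₁ (X (2 ^ n • (k - l))) / 4 ^ n -
          2 * (Height.logHeight₁ (X (2 ^ n • k)) / 4 ^ n) -
          2 * (Height.logHeight₁ (X (2 ^ n • l)) / 4 ^ n)) * 4 ^ n| := by
            rw [abs_mul, abs_of_pos h4]
      _ = |Height.logHeight₁ (X (2 ^ n • (k + l))) + Height.logHeight₁ (X (2 ^ n • (k - l))) -
          2 * Height.logHeight₁ (X (2 ^ n • k)) - 2 * Height.logHeight₁ (X (2 ^ n • l))| := by
            congr 1
            field_simp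
      _ ≤ C := h5
  have h6 := abs_nonpos_iff.mp h3
  linarith

theorem LCH_par {e : (Fin m → ℤ) → ℝ} {C : ℝ} (hX : GLat (0 : K) A B X Y)
    (hC : ∀ k l, k ≠ 0 → l ≠ 0 → k ≠ l → k ≠ -l →
      |Height.logHeight₁ (X (k + l)) + Height.logHeight₁ (X (k - l)) -
        2 * Height.logHeight₁ (X k) - 2 * Height.logHeight₁ (X l)| ≤ C)
    (he : ∀ k, k ≠ 0 → IsCanK (fun n : ℕ => X (n • k)) (e k)) (he0 : e 0 = 0)
    (k l : Fin m → ℤ) :
    e (k + l) + e (k - l) = 2 * e k + 2 * e l := by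
  by_cases hl : l = 0
  · rw [hl, add_zero, sub_zero, he0]
    ring
  by_cases hk : k = 0
  · rw [hk, zero_add, zero_sub, he0, LCH_neg hX he hl]
    ring
  by_cases h1 : k = l
  · rw [← h1, sub_self, he0, LCH_dbl he hk]
    ring
  by_cases h2 : k = -l
  · have e1 : l = -k := by rw [h2, neg_neg]
    rw [e1, add_neg_cancel, sub_neg_eq_add, he0, LCH_dbl he hk, LCH_neg hX he hk]
    ring
  exact LCH_gen hC he hk hl h1 h2

end

theorem st_LCH (hPL : ST_LPL) (hCH : ST_KCH) (hNC : ST_KNC) : ST_LCH := by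
  intro K _ _ A B hD m X Y hX
  obtain ⟨C, hC⟩ := hPL K A B hD
  obtain ⟨C', hC'⟩ := hCH K A B hD
  obtain ⟨c, hc, hcK⟩ := hNC K A B hD
  have hex : ∀ k : Fin m → ℤ, ∃ e : ℝ, (k = 0 → e = 0) ∧
      (k ≠ 0 → IsCanK (fun n : ℕ => X (n • k)) e) := by
    intro k
    by_cases hk : k = 0
    · exact ⟨0, fun _ => rfl, fun h => absurd hk h⟩
    · obtain ⟨e, he, -⟩ := hC' _ _ (st_LSQ K m (0 : K) A B X Y hX k hk)
      exact ⟨e, fun h => absurd h hk, fun _ => he⟩
  choose e he0 he using hex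
  have hp := LCH_par hX (hC m X Y hX).1 he (he0 0 rfl)
  have hq := LCH_qf e (he0 0 rfl) hp
  set G : Matrix (Fin m) (Fin m) ℝ :=
    Matrix.of fun i j => LCH_b e (Pi.single i 1) (Pi.single j 1) with hG
  refine ⟨G, ?_, ?_, ?_, ?_⟩
  · refine Matrix.IsSymm.ext (fun i j => ?_)
    rw [hG, Matrix.of_apply, Matrix.of_apply]
    exact LCH_b_symm e _ _
  · intro k hk
    rw [← hq k]
    exact LCH_lim he hk
  · intro k hk
    rw [← hq k]
    exact he k hk
  · intro k hk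
    rw [← hq k]
    exact lt_of_lt_of_le hc (hcK _ _ (e k) (st_LSQ K m (0 : K) A B X Y hX k hk) (he k hk))

end Pool.Agent.Helper54.LM
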