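import Pool.Agent.Helper54.LM.Defs
import Pool.Agent.Helper99.LK.CS
import Pool.Agent.Helper96.LM.LSQ

/-!
# LM project: module LCS (large `j`, normalised, archimedean)
-/

open Filter Topology NumberField

namespace Pool.Agent.Helper54.LM

open Pool.Agent.Helper42.LS Pool.Agent.Helper42.LK

theorem LCS_pr {m : ℕ} (k : Fin m → ℤ) (τ : Fin m → ℝ) (n : ℕ) :
    pr (n • k) τ = n * pr k τ := by
  unfold pr
  rw [Finset.mul_sum]
  refine Finset.sum_congr rfl (fun i _ => ?_)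
  simp only [Pi.smul_apply, nsmul_eq_mul, Int.cast_mul, Int.cast_natCast]
  ring

/-- the function on the lattice -/
noncomputable def LCS_F {m : ℕ} (κ : ℂ) (S : (Fin m → ℤ) → ℂ) (k : Fin m → ℤ) : ℝ :=
  open Classical in if k = 0 then 0 else fk κ (S k)

theorem LCS_F_zero {m : ℕ} (κ : ℂ) (S : (Fin m → ℤ) → ℂ) : LCS_F κ S 0 = 0 := if_pos rfl

theorem LCS_F_pos {m : ℕ} (κ : ℂ) (S : (Fin m → ℤ) → ℂ) {k : Fin m → ℤ} (hk : k ≠ 0) :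
    LCS_F κ S k = fk κ (S k) := if_neg hk

theorem LCS_F_bd {m : ℕ} (κ : ℂ) (S : (Fin m → ℤ) → ℂ) (hκ : κ ≠ 0) (hκ1 : ‖κ‖ ≤ 1 / 100)
    (k : Fin m → ℤ) : 0 ≤ LCS_F κ S k ∧ LCS_F κ S k ≤ (-Real.log ‖κ‖) / 2 := by
  unfold LCS_F
  split_ifs with h
  · exact ⟨le_refl _, (half_pos (CS_W_pos κ hκ hκ1)).le⟩
  · exact ⟨CS_fk_nonneg _ _, CS_fk_le _ _ hκ hκ1⟩

theorem LCS_F_neg {m : ℕ} (κ : ℂ) (S : (Fin m → ℤ) → ℂ) (hS : ∀ k, k ≠ 0 → S (-k) = S k)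
    (k : Fin m → ℤ) : LCS_F κ S (-k) = LCS_F κ S k := by
  by_cases hk : k = 0
  · rw [hk, neg_zero]
  · rw [LCS_F_pos κ S hk, LCS_F_pos κ S (neg_ne_zero.mpr hk), hS k hk]

/-- the law -/
theorem LCS_law {m : ℕ} (κ : ℂ) (hκ : κ ≠ 0) (hκ1 : ‖κ‖ ≤ 1 / 100) (S : (Fin m → ℤ) → ℂ)
    (hS : ∀ k, k ≠ 0 → S (-k) = S k) (C : ℝ) (hC : 0 ≤ C)
    (hA : ∀ k l : Fin m → ℤ, k ≠ 0 → l ≠ 0 → k ≠ l → k ≠ -l →
      (|fk κ (S (k + l)) - abs (fk κ (S k) - fk κ (S l))| ≤ C ∧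
        |fk κ (S (k - l)) - min (fk κ (S k) + fk κ (S l))
          (-Real.log ‖κ‖ - (fk κ (S k) + fk κ (S l)))| ≤ C) ∨
      (|fk κ (S (k - l)) - abs (fk κ (S k) - fk κ (S l))| ≤ C ∧
        |fk κ (S (k + l)) - min (fk κ (S k) + fk κ (S l))
          (-Real.log ‖κ‖ - (fk κ (S k) + fk κ (S l)))| ≤ C))
    (hD : ∀ k : Fin m → ℤ, k ≠ 0 →
      |fk κ (S (k + k)) - min (2 * fk κ (S k)) (-Real.log ‖κ‖ - 2 * fk κ (S k))| ≤ C)
    (a b : Fin m → ℤ) :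
    (|LCS_F κ S (a - b) - abs (LCS_F κ S a - LCS_F κ S b)| ≤ C ∧
      |LCS_F κ S (a + b) - min (LCS_F κ S a + LCS_F κ S b)
        (-Real.log ‖κ‖ - (LCS_F κ S a + LCS_F κ S b))| ≤ C) ∨
    (|LCS_F κ S (a + b) - abs (LCS_F κ S a - LCS_F κ S b)| ≤ C ∧
      |LCS_F κ S (a - b) - min (LCS_F κ S a + LCS_F κ S b)
        (-Real.log ‖κ‖ - (LCS_F κ S a + LCS_F κ S b))| ≤ C) := by
  have ha := LCS_F_bd κ S hκ hκ1 a
  have hb := LCS_F_bd κ S hκ hκ1 b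
  have hdd : ∀ k : Fin m → ℤ, k ≠ 0 → k + k ≠ 0 := by
    intro k hk h
    apply hk
    funext i
    have := congrFun h i
    simp only [Pi.add_apply, Pi.zero_apply] at this
    show k i = 0
    omega
  by_cases h0 : b = 0
  · left
    rw [h0, LCS_F_zero, sub_zero, sub_zero, add_zero, add_zero, abs_of_nonneg ha.1, sub_self,
      abs_zero, min_eq_left (by linarith), sub_self, abs_zero]
    exact ⟨hC, hC⟩
  by_cases h1 : a = 0
  · left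
    rw [h1, LCS_F_zero, zero_sub, zero_sub, zero_add, zero_add, abs_neg, abs_of_nonneg hb.1,
      LCS_F_neg κ S hS, sub_self,
      abs_zero, min_eq_left (by linarith), sub_self, abs_zero]
    exact ⟨hC, hC⟩
  by_cases h2 : a = b
  · left
    rw [← h2, sub_self, sub_self, LCS_F_zero, abs_zero, sub_zero, abs_zero]
    refine ⟨hC, ?_⟩
    rw [LCS_F_pos κ S (hdd a h1), LCS_F_pos κ S h1, ← two_mul (fk κ (S a))]
    exact hD a h1
  by_cases h3 : a = -b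
  · right
    have e : b = -a := by rw [h3, neg_neg]
    rw [e, LCS_F_neg κ S hS, add_neg_cancel, sub_self, LCS_F_zero, abs_zero, sub_zero, abs_zero,
      sub_neg_eq_add]
    refine ⟨hC, ?_⟩
    rw [LCS_F_pos κ S (hdd a h1), LCS_F_pos κ S h1, ← two_mul (fk κ (S a))]
    exact hD a h1
  have h4 : a - b ≠ 0 := sub_ne_zero.mpr h2
  have h5 : a + b ≠ 0 := fun h => h3 (eq_neg_of_add_eq_zero_left h)
  rw [LCS_F_pos κ S h4, LCS_F_pos κ S h5, LCS_F_pos κ S h1, LCS_F_pos κ S h0]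
  rcases hA a b h1 h0 h2 h3 with ⟨h6, h7⟩ | ⟨h6, h7⟩
  · exact Or.inr ⟨h6, h7⟩
  · exact Or.inl ⟨h6, h7⟩

/-- the inequality for the potential at one point -/
theorem LCS_pot {W C CP K L L2 LY R f f2 : ℝ} (hW : 0 < W)
    (hf0 : 0 ≤ f) (hf1 : f ≤ W / 2) (hg0 : 0 ≤ f2) (hg1 : f2 ≤ W / 2)
    (hP : 4 * L - 2 * f - CP ≤ R) (hlog : L2 + LY = R)
    (hD : |f2 - min (2 * f) (W - 2 * f)| ≤ C) (hKC : 0 ≤ K) :
    4 * (L - f * (W - f) / W) - (|CP| + C + K) ≤ L2 - f2 * (W - f2) / W + LY := by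
  have hm0 : 0 ≤ min (2 * f) (W - 2 * f) := le_min (by linarith) (by linarith)
  have hm1 : min (2 * f) (W - 2 * f) ≤ W := (min_le_right _ _).trans (by linarith)
  have hl := CS_lip W (min (2 * f) (W - 2 * f)) f2 hW hm0 hm1 hg0 (by linarith)
  rw [CS_fold W f hW, abs_sub_comm] at hl
  have e1 : f * (W - f) / W = f - f ^ 2 / W := by
    field_simp
  have e2 : 4 * f ^ 2 / W = 4 * (f ^ 2 / W) := by ring
  have hCP' : CP ≤ |CP| := le_abs_self CP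
  rw [e1]
  rw [e2] at hl
  linarith

theorem LCS_low {W CP C K x L f : ℝ} (hW : 0 < W) (hC : 0 ≤ C)
    (hf0 : 0 ≤ f) (hf1 : f ≤ W / 2) (h3 : |f - W * nd x| ≤ K) (hL : 0 ≤ L) :
    W * (B2 x - 1 / 6) - (|CP| + C + K) ≤ L - f * (W - f) / W := by
  have hn0 : 0 ≤ nd x := by
    unfold nd
    refine le_min (Int.fract_nonneg _) ?_
    linarith [Int.fract_lt_one x]
  have hn1 : nd x ≤ 1 := by
    unfold nd
    exact (min_le_left _ _).trans (Int.fract_lt_one _).le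
  have hg0 : 0 ≤ W * nd x := mul_nonneg hW.le hn0
  have hg1 : W * nd x ≤ W := by
    have := mul_le_mul_of_nonneg_left hn1 hW.le
    linarith
  have hl := CS_lip W (W * nd x) f hW hg0 hg1 hf0 (by linarith)
  rw [abs_sub_comm] at hl
  have e1 : W * nd x * (W - W * nd x) / W = W * (nd x * (1 - nd x)) := by
    field_simp
  rw [e1] at hl
  rw [CS_B2]
  have hCP' : 0 ≤ |CP| := abs_nonneg CP
  have e2 : W * -(nd x * (1 - nd x)) = -(W * (nd x * (1 - nd x))) := by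
    ring
  rw [e2]
  linarith

theorem st_LCS (hLID : ST_LID) (hCFA : ST_CFA) (hCFD : ST_CFD) (hCP : ST_CP) (hLFT : ST_LFT) :
    ST_LCS := by
  intro m
  obtain ⟨CA, hCA⟩ := hCFA
  obtain ⟨CD, hCD⟩ := hCFD
  obtain ⟨CP, hCP⟩ := hCP
  obtain ⟨K, hK0, hK⟩ := hLFT m
  obtain ⟨C, hC0, hCAC, hCDC⟩ : ∃ C : ℝ, 0 ≤ C ∧ CA ≤ C ∧ CD ≤ C :=
    ⟨max (max CA CD) 0, le_max_right _ _, (le_max_left _ _).trans (le_max_left _ _),
      (le_max_right _ _).trans (le_max_left _ _)⟩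
  refine ⟨|CP| + C + K * C, ?_⟩
  intro κ hκ hκ1 Z Y hZY
  obtain ⟨S, hS⟩ : ∃ S : (Fin m → ℤ) → ℂ, ∀ k, S k = (Y k / Z k) ^ 2 := ⟨_, fun k => rfl⟩
  obtain ⟨h1, h2⟩ := hLID κ hκ hκ1 m Z Y hZY S hS
  have hW : 0 < -Real.log ‖κ‖ := CS_W_pos κ hκ hκ1
  have hSneg : ∀ k, k ≠ 0 → S (-k) = S k := by
    intro k hk
    rw [hS, hS, hZY.negx k hk, hZY.negy k hk]
    ring
  have hA : ∀ k l : Fin m → ℤ, k ≠ 0 → l ≠ 0 → k ≠ l → k ≠ -l →
      (|fk κ (S (k + l)) - abs (fk κ (S k) - fk κ (S l))| ≤ C ∧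
        |fk κ (S (k - l)) - min (fk κ (S k) + fk κ (S l))
          (-Real.log ‖κ‖ - (fk κ (S k) + fk κ (S l)))| ≤ C) ∨
      (|fk κ (S (k - l)) - abs (fk κ (S k) - fk κ (S l))| ≤ C ∧
        |fk κ (S (k + l)) - min (fk κ (S k) + fk κ (S l))
          (-Real.log ‖κ‖ - (fk κ (S k) + fk κ (S l)))| ≤ C) := by
    intro k l hk hl hkl hkl'
    obtain ⟨g1, g2, g3⟩ := h2 k l hk hl hkl hkl'
    rcases hCA κ (S k) (S l) (S (k + l)) (S (k - l)) hκ hκ1 g1 g2 g3 with ⟨g4, g5⟩ | ⟨g4, g5⟩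
    · exact Or.inl ⟨g4.trans hCAC, g5.trans hCAC⟩
    · exact Or.inr ⟨g4.trans hCAC, g5.trans hCAC⟩
  have hD : ∀ k : Fin m → ℤ, k ≠ 0 →
      |fk κ (S (k + k)) - min (2 * fk κ (S k)) (-Real.log ‖κ‖ - 2 * fk κ (S k))| ≤ C := by
    intro k hk
    obtain ⟨_, g1, g2, g3, _, g5⟩ := h1 k hk
    exact (hCD κ (S k) (S (k + k)) hκ hκ1 g1 g2 g3 g5).trans hCDC
  have hbd := LCS_F_bd κ S hκ hκ1
  obtain ⟨τ, hτ⟩ := hK (-Real.log ‖κ‖) C hW hC0 (LCS_F κ S) hbd (LCS_F_zero κ S)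
    (LCS_F_neg κ S hSneg) (LCS_law κ hκ hκ1 S hSneg C hC0 hA hD)
  have hKC : 0 ≤ K * C := mul_nonneg hK0 hC0
  refine ⟨τ, fun k hk => ?_⟩
  have hf0 : ∀ n : ℕ, 0 ≤ fk κ (S (n • k)) := fun n => CS_fk_nonneg _ _
  have hf1 : ∀ n : ℕ, fk κ (S (n • k)) ≤ -Real.log ‖κ‖ / 2 := fun n => CS_fk_le _ _ hκ hκ1
  have two : ∀ n : ℕ, (2 * n) • k = n • k + n • k := by
    intro n
    rw [two_mul, add_smul]
  refine ⟨fun n => Real.log (max ‖Z (n • k)‖ 1) -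
    fk κ (S (n • k)) * (-Real.log ‖κ‖ - fk κ (S (n • k))) / (-Real.log ‖κ‖), ?_, ?_, ?_⟩
  · intro n hn
    have hnk : n • k ≠ 0 := LSQ_ne_zero hk hn
    obtain ⟨gz, _, _, _, g4, _⟩ := h1 (n • k) hnk
    have hYne : Y (n • k) ≠ 0 := hZY.yne _ hnk
    have hcurve : Y (n • k) ^ 2 = Z (n • k) ^ 3 - (2 + κ) * Z (n • k) ^ 2 + Z (n • k) := by
      rw [hZY.curve _ hnk]
      ring
    have hP := hCP κ (Z (n • k)) (Y (n • k)) hκ hκ1 gz hYne hcurve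
    rw [← hS] at hP
    have hY4 : 0 < ‖4 * Y (n • k) ^ 2‖ := by
      apply norm_pos_iff.mpr
      exact mul_ne_zero (by norm_num) (pow_ne_zero 2 hYne)
    have hlog : Real.log (max ‖Z ((2 * n) • k)‖ 1) + Real.log ‖4 * Y (n • k) ^ 2‖ =
        Real.log (max (‖Z (n • k) ^ 2 - 1‖ ^ 2) ‖4 * Y (n • k) ^ 2‖) := by
      rw [← Real.log_mul (lt_of_lt_of_le one_pos (le_max_right _ _)).ne' hY4.ne',
        max_mul_of_nonneg _ _ hY4.le, one_mul, ← norm_mul, two n, g4, norm_pow]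
    have hD' := hD _ hnk
    rw [← two n] at hD'
    exact LCS_pot hW (hf0 n) (hf1 n) (hf0 (2 * n)) (hf1 (2 * n)) hP hlog hD' hKC
  · intro n hn
    have h3 : 0 ≤ fk κ (S (n • k)) * (-Real.log ‖κ‖ - fk κ (S (n • k))) / (-Real.log ‖κ‖) := by
      apply div_nonneg _ hW.le
      apply mul_nonneg (hf0 n)
      linarith [hf1 n]
    show Real.log (max ‖Z (n • k)‖ 1) -
      fk κ (S (n • k)) * (-Real.log ‖κ‖ - fk κ (S (n • k))) / (-Real.log ‖κ‖) ≤ _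
    linarith
  · intro n hn
    have h3 := hτ (n • k)
    rw [LCS_F_pos κ S (LSQ_ne_zero hk hn), LCS_pr] at h3
    exact LCS_low hW hC0 (hf0 n) (hf1 n) h3 (Real.log_nonneg (le_max_right _ _))

end Pool.Agent.Helper54.LM
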