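import Pool.Agent.Helper54.LM.Defs
import Pool.Agent.Helper99.LK.FST
import Pool.Agent.Helper50.LS.RC

/-!
# LM project: module LFT (stability of folded homomorphisms on `ℤ ^ m`)
-/

open Filter Topology NumberField

namespace Pool.Agent.Helper54.LM

open Pool.Agent.Helper42.LS Pool.Agent.Helper42.LK

/-- the class of `k` -/
theorem LFT_class {G : Type} [AddCommGroup G] (W K C : ℝ) (hK : 1 ≤ K) (hC : 0 ≤ C)
    (hWK : 10 * (K * C) < W)
    (f : G → ℝ)
    (law : ∀ a b : G,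
      (|f (a - b) - abs (f a - f b)| ≤ C ∧ |f (a + b) - min (f a + f b) (W - (f a + f b))| ≤ C) ∨
      (|f (a + b) - abs (f a - f b)| ≤ C ∧ |f (a - b) - min (f a + f b) (W - (f a + f b))| ≤ C))
    (hf : ∀ k : G, 0 ≤ f k ∧ f k ≤ W / 2)
    (hcl : ∀ k : G, f k ≤ K * C ∨ W / 2 - K * C ≤ f k) (a b : G) :
    (f a ≤ K * C → f b ≤ K * C → f (a + b) ≤ K * C) ∧
    (f a ≤ K * C → W / 2 - K * C ≤ f b → W / 2 - K * C ≤ f (a + b)) ∧
    (W / 2 - K * C ≤ f a → f b ≤ K * C → W / 2 - K * C ≤ f (a + b)) ∧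
    (W / 2 - K * C ≤ f a → W / 2 - K * C ≤ f b → f (a + b) ≤ K * C) := by
  have hKC : C ≤ K * C := le_mul_of_one_le_left hC hK
  have ha := hf a
  have hb := hf b
  have key : |f (a + b) - abs (f a - f b)| ≤ C ∨
      |f (a + b) - min (f a + f b) (W - (f a + f b))| ≤ C := by
    rcases law a b with h | h
    · exact Or.inr h.2
    · exact Or.inl h.1
  have hab := hcl (a + b)
  refine ⟨fun h1 h2 => ?_, fun h1 h2 => ?_, fun h1 h2 => ?_, fun h1 h2 => ?_⟩
  · rcases hab with h | h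
    · exact h
    · exfalso
      rcases key with h3 | h3
      · have h4 : |f a - f b| ≤ K * C := by
          rw [abs_le]
          constructor <;> linarith
        have h5 := (abs_le.mp h3).2
        linarith
      · have h4 : min (f a + f b) (W - (f a + f b)) ≤ 2 * (K * C) :=
          (min_le_left _ _).trans (by linarith)
        have h5 := (abs_le.mp h3).2
        linarith
  · rcases hab with h | h
    · exfalso
      rcases key with h3 | h3
      · have h4 : W / 2 - 2 * (K * C) ≤ |f a - f b| := by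
          rw [abs_sub_comm]
          exact le_trans (by linarith) (le_abs_self _)
        have h5 := (abs_le.mp h3).1
        linarith
      · have h4 : W / 2 - 2 * (K * C) ≤ min (f a + f b) (W - (f a + f b)) :=
          le_min (by linarith) (by linarith)
        have h5 := (abs_le.mp h3).1
        linarith
    · exact h
  · rcases hab with h | h
    · exfalso
      rcases key with h3 | h3
      · have h4 : W / 2 - 2 * (K * C) ≤ |f a - f b| :=
          le_trans (by linarith) (le_abs_self _)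
        have h5 := (abs_le.mp h3).1
        linarith
      · have h4 : W / 2 - 2 * (K * C) ≤ min (f a + f b) (W - (f a + f b)) :=
          le_min (by linarith) (by linarith)
        have h5 := (abs_le.mp h3).1
        linarith
    · exact h
  · rcases hab with h | h
    · exact h
    · exfalso
      rcases key with h3 | h3
      · have h4 : |f a - f b| ≤ K * C := by
          rw [abs_le]
          constructor <;> linarith
        have h5 := (abs_le.mp h3).2
        linarith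
      · have h4 : min (f a + f b) (W - (f a + f b)) ≤ 2 * (K * C) :=
          (min_le_right _ _).trans (by linarith)
        have h5 := (abs_le.mp h3).2
        linarith

/-- membership in the graph of the class function -/
def LFT_Q {G : Type} (W D : ℝ) (f : G → ℝ) (k : G) (x : ℝ) : Prop :=
  ((∃ n : ℤ, x = n) ∧ f k ≤ D) ∨ ((∃ n : ℤ, x = (n : ℝ) + 1 / 2) ∧ W / 2 - D ≤ f k)

theorem LFT_Q_add {G : Type} [AddCommGroup G] {W D : ℝ} {f : G → ℝ}
    (hcl : ∀ a b : G, (f a ≤ D → f b ≤ D → f (a + b) ≤ D) ∧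
    (f a ≤ D → W / 2 - D ≤ f b → W / 2 - D ≤ f (a + b)) ∧
    (W / 2 - D ≤ f a → f b ≤ D → W / 2 - D ≤ f (a + b)) ∧
    (W / 2 - D ≤ f a → W / 2 - D ≤ f b → f (a + b) ≤ D))
    {k l : G} {x y : ℝ} (h1 : LFT_Q W D f k x) (h2 : LFT_Q W D f l y) :
    LFT_Q W D f (k + l) (x + y) := by
  rcases h1 with ⟨⟨n, hn⟩, h1⟩ | ⟨⟨n, hn⟩, h1⟩ <;> rcases h2 with ⟨⟨p, hp⟩, h2⟩ | ⟨⟨p, hp⟩, h2⟩
  · exact Or.inl ⟨⟨n + p, by rw [hn, hp]; push_cast; ring⟩, (hcl k l).1 h1 h2⟩
  · exact Or.inr ⟨⟨n + p, by rw [hn, hp]; push_cast; ring⟩, (hcl k l).2.1 h1 h2⟩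
  · exact Or.inr ⟨⟨n + p, by rw [hn, hp]; push_cast; ring⟩, (hcl k l).2.2.1 h1 h2⟩
  · exact Or.inl ⟨⟨n + p + 1, by rw [hn, hp]; push_cast; ring⟩, (hcl k l).2.2.2 h1 h2⟩

theorem LFT_Q_neg {G : Type} [AddCommGroup G] {W D : ℝ} {f : G → ℝ}
    (hneg : ∀ a : G, f (-a) = f a)
    {k : G} {x : ℝ} (h1 : LFT_Q W D f k x) : LFT_Q W D f (-k) (-x) := by
  rcases h1 with ⟨⟨n, hn⟩, h1⟩ | ⟨⟨n, hn⟩, h1⟩
  · exact Or.inl ⟨⟨-n, by rw [hn]; push_cast; ring⟩, by rw [hneg]; exact h1⟩
  · exact Or.inr ⟨⟨-n - 1, by rw [hn]; push_cast; ring⟩, by rw [hneg]; exact h1⟩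

theorem LFT_Q_nsmul {G : Type} [AddCommGroup G] {W D : ℝ} {f : G → ℝ} (hD : 0 ≤ D)
    (hf0 : f 0 = 0)
    (hcl : ∀ a b : G, (f a ≤ D → f b ≤ D → f (a + b) ≤ D) ∧
    (f a ≤ D → W / 2 - D ≤ f b → W / 2 - D ≤ f (a + b)) ∧
    (W / 2 - D ≤ f a → f b ≤ D → W / 2 - D ≤ f (a + b)) ∧
    (W / 2 - D ≤ f a → W / 2 - D ≤ f b → f (a + b) ≤ D))
    {k : G} {x : ℝ} (h1 : LFT_Q W D f k x) (n : ℕ) : LFT_Q W D f (n • k) (n * x) := by
  induction n with
  | zero =>
    rw [zero_smul, Nat.cast_zero, zero_mul]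
    exact Or.inl ⟨⟨0, by simp⟩, by rw [hf0]; exact hD⟩
  | succ n ih =>
    rw [succ_nsmul]
    have e : ((n + 1 : ℕ) : ℝ) * x = n * x + x := by push_cast; ring
    rw [e]
    exact LFT_Q_add hcl ih h1

theorem LFT_Q_zsmul {G : Type} [AddCommGroup G] {W D : ℝ} {f : G → ℝ} (hD : 0 ≤ D)
    (hf0 : f 0 = 0) (hneg : ∀ a : G, f (-a) = f a)
    (hcl : ∀ a b : G, (f a ≤ D → f b ≤ D → f (a + b) ≤ D) ∧
    (f a ≤ D → W / 2 - D ≤ f b → W / 2 - D ≤ f (a + b)) ∧
    (W / 2 - D ≤ f a → f b ≤ D → W / 2 - D ≤ f (a + b)) ∧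
    (W / 2 - D ≤ f a → W / 2 - D ≤ f b → f (a + b) ≤ D))
    {k : G} {x : ℝ} (h1 : LFT_Q W D f k x) (n : ℤ) : LFT_Q W D f (n • k) (n * x) := by
  obtain ⟨p, hp | hp⟩ := Int.eq_nat_or_neg n
  · rw [hp, natCast_zsmul, Int.cast_natCast]
    exact LFT_Q_nsmul hD hf0 hcl h1 p
  · rw [hp, neg_smul, natCast_zsmul]
    have e : ((-(p : ℤ) : ℤ) : ℝ) * x = -((p : ℝ) * x) := by push_cast; ring
    rw [e]
    exact LFT_Q_neg hneg (LFT_Q_nsmul hD hf0 hcl h1 p)

theorem LFT_Q_dist {G : Type} {W D : ℝ} {f : G → ℝ}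
    (hf : ∀ k : G, 0 ≤ f k ∧ f k ≤ W / 2) {k : G} {x : ℝ} (h1 : LFT_Q W D f k x) :
    |f k - W * nd x| ≤ D := by
  rcases h1 with ⟨⟨n, hn⟩, h1⟩ | ⟨⟨n, hn⟩, h1⟩
  · rw [hn, FST_nd_int, mul_zero, sub_zero, abs_of_nonneg (hf k).1]
    exact h1
  · rw [hn, FST_nd_half]
    have h8 := (hf k).2
    rw [abs_le]
    constructor <;> linarith

theorem LFT_pr {m : ℕ} (k : Fin m → ℤ) (τ : Fin m → ℝ) (W : ℝ) :
    pr k (fun i => τ i / W) = pr k τ / W := by
  unfold pr
  rw [Finset.sum_div]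
  refine Finset.sum_congr rfl (fun i _ => ?_)
  ring

/-- the sum of the coordinate vectors, `Q`-version -/
theorem LFT_Q_sum {m : ℕ} {W D : ℝ} {f : (Fin m → ℤ) → ℝ} (hD : 0 ≤ D)
    (hf0 : f 0 = 0)
    (hcl : ∀ a b : Fin m → ℤ, (f a ≤ D → f b ≤ D → f (a + b) ≤ D) ∧
    (f a ≤ D → W / 2 - D ≤ f b → W / 2 - D ≤ f (a + b)) ∧
    (W / 2 - D ≤ f a → f b ≤ D → W / 2 - D ≤ f (a + b)) ∧
    (W / 2 - D ≤ f a → W / 2 - D ≤ f b → f (a + b) ≤ D))
    (τ : Fin m → ℝ) (k : Fin m → ℤ)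
    (h : ∀ i, LFT_Q W D f (Pi.single i (k i)) (k i * τ i)) :
    LFT_Q W D f k (pr k τ) := by
  have key : ∀ s : Finset (Fin m),
      LFT_Q W D f (∑ i ∈ s, Pi.single i (k i)) (∑ i ∈ s, (k i : ℝ) * τ i) := by
    intro s
    induction s using Finset.induction_on with
    | empty =>
      rw [Finset.sum_empty, Finset.sum_empty]
      exact Or.inl ⟨⟨0, by simp⟩, by rw [hf0]; exact hD⟩
    | insert a s ha ih =>
      rw [Finset.sum_insert ha, Finset.sum_insert ha]
      exact LFT_Q_add hcl (h a) ih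
  have h1 := key Finset.univ
  rw [Finset.univ_sum_single k] at h1
  exact h1

theorem LFT_single {m : ℕ} (i : Fin m) (n : ℤ) :
    (Pi.single i n : Fin m → ℤ) = n • (Pi.single i (1 : ℤ) : Fin m → ℤ) := by
  rw [← Pi.single_smul, smul_eq_mul, mul_one]

/-- the sum of the coordinate vectors, additive up to a constant -/
theorem LFT_T_sum {m : ℕ} {W D : ℝ} (hW : 0 < W) {T : (Fin m → ℤ) → ℝ}
    (hT0 : T 0 = 0)
    (hadd : ∀ a b, FS1_N W (T (a + b) - T a - T b) ≤ D)
    (τ : Fin m → ℝ) (k : Fin m → ℤ) (E : ℝ)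
    (h : ∀ i, FS1_N W (T (Pi.single i (k i)) - k i * τ i) ≤ E) :
    FS1_N W (T k - pr k τ) ≤ m * (D + E) := by
  have key : ∀ s : Finset (Fin m),
      FS1_N W (T (∑ i ∈ s, Pi.single i (k i)) - (∑ i ∈ s, (k i : ℝ) * τ i)) ≤
        s.card * (D + E) := by
    intro s
    induction s using Finset.induction_on with
    | empty =>
      rw [Finset.sum_empty, Finset.sum_empty, hT0, Finset.card_empty, Nat.cast_zero, zero_mul,
        sub_zero]
      have := FS1_N_le W hW 0 0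
      simpa using this
    | insert a s ha ih =>
      rw [Finset.sum_insert ha, Finset.sum_insert ha, Finset.card_insert_of_notMem ha]
      set b := ∑ i ∈ s, (Pi.single i (k i) : Fin m → ℤ) with hb
      set z := ∑ i ∈ s, (k i : ℝ) * τ i with hz
      have e : T (Pi.single a (k a) + b) - (k a * τ a + z) =
          (T (Pi.single a (k a) + b) - T (Pi.single a (k a)) - T b) +
          ((T (Pi.single a (k a)) - k a * τ a) + (T b - z)) := by ring
      rw [e]
      have h1 := FS1_N_add W hW (T (Pi.single a (k a) + b) - T (Pi.single a (k a)) - T b)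
        ((T (Pi.single a (k a)) - k a * τ a) + (T b - z))
      have h2 := FS1_N_add W hW (T (Pi.single a (k a)) - k a * τ a) (T b - z)
      have h3 := hadd (Pi.single a (k a)) b
      have h4 := h a
      push_cast
      linarith
  have h1 := key Finset.univ
  rw [Finset.univ_sum_single k, Finset.card_univ, Fintype.card_fin] at h1
  exact h1

/-- one coordinate -/
theorem LFT_T_one {m : ℕ} {W D : ℝ} (hW : 0 < W) (hD : 0 ≤ D) {T : (Fin m → ℤ) → ℝ}
    (hT0 : T 0 = 0) (hTW : ∀ k, |T k| ≤ W)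
    (hadd : ∀ a b, ∃ n : ℤ, |T (a + b) - T a - T b - n * W| ≤ D)
    (i : Fin m) : ∃ τ : ℝ, ∀ n : ℤ, FS1_N W (T (Pi.single i n) - n * τ) ≤ 9 * D := by
  obtain ⟨τ, hτ⟩ := st_RC W D hW hD (fun n : ℕ => T (Pi.single i (n : ℤ)))
    (fun n _ => hTW _)
    (fun n l _ _ => by
      obtain ⟨p, hp⟩ := hadd (Pi.single i (n : ℤ)) (Pi.single i (l : ℤ))
      refine ⟨p, ?_⟩
      show |T (Pi.single i ((n + l : ℕ) : ℤ)) - T (Pi.single i (n : ℤ)) -
        T (Pi.single i (l : ℤ)) - p * W| ≤ D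
      rw [Nat.cast_add, Pi.single_add]
      exact hp)
  have hnat : ∀ n : ℕ, FS1_N W (T (Pi.single i (n : ℤ)) - n * τ) ≤ 8 * D := by
    intro n
    rcases Nat.eq_zero_or_pos n with h | h
    · rw [h, Nat.cast_zero, Pi.single_zero, hT0, Nat.cast_zero, zero_mul, sub_zero]
      have := FS1_N_le W hW 0 0
      refine this.trans ?_
      simp only [Int.cast_zero, zero_mul, sub_zero, abs_zero]
      positivity
    · obtain ⟨p, hp⟩ := hτ n h
      exact (FS1_N_le W hW _ p).trans hp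
  refine ⟨τ, fun n => ?_⟩
  obtain ⟨p, hp | hp⟩ := Int.eq_nat_or_neg n
  · rw [hp, Int.cast_natCast]
    have := hnat p
    linarith
  · rw [hp]
    obtain ⟨q, hq⟩ := hadd (Pi.single i (p : ℤ)) (Pi.single i (-(p : ℤ)))
    rw [← Pi.single_add, add_neg_cancel, Pi.single_zero, hT0] at hq
    have h1 := (FS1_N_le W hW _ q).trans hq
    have h2 := hnat p
    have e : T (Pi.single i (-(p : ℤ))) - ((-(p : ℤ) : ℤ) : ℝ) * τ =
        -((0 - T (Pi.single i (p : ℤ)) - T (Pi.single i (-(p : ℤ)))) +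
          (T (Pi.single i (p : ℤ)) - p * τ)) := by
      push_cast
      ring
    rw [e, FS1_N_neg W hW]
    have h3 := FS1_N_add W hW (0 - T (Pi.single i (p : ℤ)) - T (Pi.single i (-(p : ℤ))))
      (T (Pi.single i (p : ℤ)) - p * τ)
    linarith

theorem st_LFT (h1 : ST_LFS) : ST_LFT := by
  intro m
  obtain ⟨K, hK, hFS⟩ := h1
  refine ⟨(10 * m + 8) * K, by positivity, ?_⟩
  intro W C hW hC f hf hf0 hfneg law
  have hK0 : 0 ≤ K := by linarith
  have hKC : 0 ≤ K * C := mul_nonneg hK0 hC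
  have hbig : 8 * (K * C) ≤ (10 * m + 8) * K * C := by
    have : 0 ≤ (m : ℝ) * (K * C) := mul_nonneg (Nat.cast_nonneg m) hKC
    nlinarith
  by_cases hg : ∃ g : Fin m → ℤ, K * C < f g ∧ f g < W / 2 - K * C
  · obtain ⟨T, hT, hadd⟩ := hFS W C hW hC (Fin m → ℤ) f hf hf0 hfneg law hg
    have habsT : ∀ k, |T k| = f k := by
      intro k
      rcases hT k with h | h
      · rw [h, abs_of_nonneg (hf k).1]
      · rw [h, abs_neg, abs_of_nonneg (hf k).1]
    have hT0 : T 0 = 0 := by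
      have := habsT 0
      rw [hf0] at this
      exact abs_eq_zero.mp this
    have hTW : ∀ k, |T k| ≤ W := by
      intro k
      rw [habsT]
      linarith [(hf k).2]
    choose τ hτ using fun i => LFT_T_one hW hKC hT0 hTW hadd i
    refine ⟨fun i => τ i / W, fun k => ?_⟩
    have h2 := LFT_T_sum hW hT0 (D := K * C)
      (fun a b => by
        obtain ⟨n, hn⟩ := hadd a b
        exact (FS1_N_le W hW _ n).trans hn) τ k (9 * (K * C)) (fun i => hτ i (k i))
    have e1 : f k = FS1_N W (T k) := by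
      rw [FS1_N_small W hW (T k) (by rw [habsT]; exact (hf k).2), habsT]
    have e2 : W * nd (pr k (fun i => τ i / W)) = FS1_N W (pr k τ) := by
      rw [FST_N_nd W hW, LFT_pr]
    rw [e2, e1]
    have h3 := FS1_N_sub W hW (T k) (pr k τ)
    refine (h3.trans h2).trans ?_
    have : (m : ℝ) * (K * C + 9 * (K * C)) = 10 * m * (K * C) := by ring
    rw [this]
    nlinarith
  · push Not at hg
    have hcl : ∀ k, f k ≤ K * C ∨ W / 2 - K * C ≤ f k := by
      intro k
      by_cases h : f k ≤ K * C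
      · exact Or.inl h
      · exact Or.inr (hg k (not_le.mp h))
    by_cases hWK : W ≤ 10 * (K * C)
    · refine ⟨fun _ => 0, fun k => ?_⟩
      have e : pr k (fun _ => (0 : ℝ)) = 0 := by
        unfold pr
        simp
      rw [e, FST_nd_zero, mul_zero, sub_zero, abs_of_nonneg (hf k).1]
      have := (hf k).2
      linarith
    · have hWK' : 10 * (K * C) < W := not_le.mp hWK
      have hcls := LFT_class W K C hK hC hWK' f law hf hcl
      have hex : ∀ i : Fin m, ∃ x : ℝ, LFT_Q W (K * C) f (Pi.single i 1) x := by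
        intro i
        rcases hcl (Pi.single i 1) with h | h
        · exact ⟨0, Or.inl ⟨⟨0, by simp⟩, h⟩⟩
        · exact ⟨1 / 2, Or.inr ⟨⟨0, by simp⟩, h⟩⟩
      choose τ hτ using hex
      refine ⟨τ, fun k => ?_⟩
      have h2 := LFT_Q_sum hKC hf0 hcls τ k (fun i => by
        rw [LFT_single i (k i)]
        exact LFT_Q_zsmul hKC hf0 hfneg hcls (hτ i) (k i))
      exact (LFT_Q_dist hf h2).trans (by linarith)

end Pool.Agent.Helper54.LM
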